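import Pool.Agent.Q79.HC.Count
import Pool.Agent.Chud.PB

/-!
# Irreducible plane curves with h-constant less than `-2` (problem MP_81ecef_ag, Q1: yes)

There are irreducible singular plane curves whose h-constants come arbitrarily close to `-9/4`.

Let `b = 3 k`, and let `C` be the closure of the image of
`t ↦ (x₁ + x₂ + x₃ : x₁ x₂ + x₂ x₃ + x₃ x₁ : 1)`, where `(x₁, x₂, x₃) = (t, t ^ b, 1 / t ^ (b + 1))`.
It is an irreducible curve of degree at most `2 (b + 1)`.  The parameters `t ≠ 1` with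
`t ^ (b² + b + 1) = 1` give `b (b + 1) / 3` points of multiplicity at least `3`, and the parameters with
`t ^ (b² - 1) = 1 ≠ t ^ (b - 1)` or `t ^ (b² + 2 b) = 1 ≠ t ^ (b + 2)` give `b² - 1` further points of
multiplicity at least `2`.
-/

set_option autoImplicit false

open MvPolynomial

namespace Pool.Agent.Results.MP_81ecef_ag.NineQuarters

/-- the projective plane over the complex numbers: the lines through the origin of `ℂ ^ 3` -/
abbrev Plane : Type := Projectivization ℂ (Fin 3 → ℂ)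

/-- the multiplicity of the plane curve `F = 0` at the point `p`: the largest `m` such that the form
`F` vanishes to order at least `m` at a representative `v` of `p` in `ℂ ^ 3`, i.e. belongs to the
`m`-th power of the ideal of all polynomials which vanish at `v` -/
noncomputable def mult (F : MvPolynomial (Fin 3) ℂ) (p : Plane) : ℕ :=
  sSup {m : ℕ | F ∈ RingHom.ker (MvPolynomial.eval p.rep) ^ m}

/-- the set of the singular points of the curve `F = 0`: the points of multiplicity at least `2` -/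
def Sing (F : MvPolynomial (Fin 3) ℂ) : Set Plane := {p | 2 ≤ mult F p}

/-- `F = 0` is an irreducible curve of degree `d` with at least one singular point -/
structure IsIrreducibleSingularCurve (F : MvPolynomial (Fin 3) ℂ) (d : ℕ) : Prop where
  homogeneous : F.IsHomogeneous d
  irreducible : Irreducible F
  finite : (Sing F).Finite
  nonempty : (Sing F).Nonempty

/-- the h-constant of the curve `F = 0` of degree `d` -/
noncomputable def h (F : MvPolynomial (Fin 3) ℂ) (d : ℕ) : ℝ :=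
  ((d : ℝ) ^ 2 - ∑ᶠ p ∈ Sing F, (mult F p : ℝ) ^ 2) / (Sing F).ncard

open Pool.Agent.Chud Pool.Agent.Q79.HC

theorem mult_eq {F : MvPolynomial (Fin 3) ℂ} (hF : F ≠ 0) (p : Plane) : mult F p = mu p.rep F := by
  have h1 : {m : ℕ | F ∈ RingHom.ker (MvPolynomial.eval p.rep) ^ m} = Set.Iic (mu p.rep F) := by
    ext m
    exact mem_mI_pow_iff p.rep hF m
  rw [mult, h1]
  exact csSup_Iic

theorem le_mult {F : MvPolynomial (Fin 3) ℂ} (hF : F ≠ 0) (p : Plane) (m : ℕ) :
    m ≤ mult F p ↔ F ∈ mI p.rep ^ m := by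
  rw [mult_eq hF, mem_mI_pow_iff p.rep hF]

theorem sing_finite {F : MvPolynomial (Fin 3) ℂ} {d : ℕ} (hF : F.IsHomogeneous d)
    (hFi : Irreducible F) : (Sing F).Finite := by
  obtain ⟨i, hi⟩ := exists_pderiv_ne_zero hFi
  have hnd : ¬ F ∣ pderiv i F := by
    rintro ⟨K, hK⟩
    have hK0 : K ≠ 0 := by
      rintro rfl
      exact hi (by rw [hK, mul_zero])
    have h1 : (pderiv i F).totalDegree = d - 1 := (hF.pderiv).totalDegree hi
    rw [hK, totalDegree_mul_of_isDomain hFi.ne_zero hK0, hF.totalDegree hFi.ne_zero] at h1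
    have hd : d = 0 := by omega
    have h2 : F.totalDegree = 0 := by rw [hF.totalDegree hFi.ne_zero, hd]
    rw [totalDegree_eq_zero_iff_eq_C] at h2
    rw [h2, pderiv_C] at hi
    exact hi rfl
  have hrel : IsRelPrime F (pderiv i F) := (hFi.isRelPrime_iff_not_dvd).2 hnd
  refine (finite_common hF (hF.pderiv (i := i)) hFi.ne_zero hi hrel).subset ?_
  intro p hp
  have hp2 : F ∈ mI p.rep ^ 2 := (le_mult hFi.ne_zero p 2).1 hp
  refine ⟨?_, ?_⟩
  · have := Ideal.pow_le_self (two_ne_zero) hp2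
    rwa [mI, RingHom.mem_ker] at this
  · have := deriv_mem p.rep (pderiv i) 1 F hp2
    rwa [pow_one, mI, RingHom.mem_ker] at this

/-- the curve has infinitely many points -/
theorem img_infinite {k : ℕ} (hk : 1 ≤ k) : (img (pp (3 * k))).Infinite := by
  intro hfin
  have hsub : P (3 * k) '' {t : ℂ | t ≠ 0} ⊆ img (pp (3 * k)) := by
    rintro q ⟨t, ht, rfl⟩
    obtain ⟨c, e, hc, h1, -⟩ := (branch (b := 3 * k) (by omega) (rfl : yy (3 * k) t = t ^ (3 * k))
      (prod_one ht)).ex
    obtain ⟨a, ha, hrep⟩ := rep_Pt t (yy (3 * k) t) (zz (3 * k) t)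
    refine ⟨t, c * a⁻¹, mul_ne_zero hc (inv_ne_zero ha), ?_⟩
    intro i
    rw [h1, P, hrep]
    field_simp
  have h2 : {t : ℂ | t ≠ 0}.Finite := by
    refine Set.Finite.of_finite_fibers (P (3 * k)) (hfin.subset hsub) ?_
    rintro q ⟨t, ht, rfl⟩
    refine (Set.toFinite {t, yy (3 * k) t, zz (3 * k) t}).subset ?_
    rintro t' ⟨ht', h3⟩
    rcases fibre ht ht' h3 with h | h | h
    · exact Or.inl h
    · exact Or.inr (Or.inl h)
    · exact Or.inr (Or.inr h)
  have h3 : ({0}ᶜ : Set ℂ).Infinite := Set.Finite.infinite_compl (Set.finite_singleton _)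
  exact h3 h2

open Classical in
/-- the contribution of the parameter `t` -/
noncomputable def g (b : ℕ) (c : ℝ) (t : ℂ) : ℝ := if t ∈ T b then (9 - c) / 3 else (4 - c) / 2

open Classical in
theorem fibre_sum {k : ℕ} (hk : 1 ≤ k) {F : MvPolynomial (Fin 3) ℂ} {d : ℕ} (hF : F.IsHomogeneous d)
    (hF0 : F ≠ 0) (h0 : aeval (pp (3 * k)) F = 0) {c : ℝ} (hc0 : 0 ≤ c) (hc4 : c ≤ 4) {q : Plane}
    (hq : q ∈ (Z (3 * k)).image (P (3 * k))) :
    2 ≤ mult F q ∧
    ∑ t ∈ (Z (3 * k)).filter (fun t => P (3 * k) t = q), g (3 * k) c t ≤ (mult F q : ℝ) ^ 2 - c := by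
  obtain ⟨s, hs, rfl⟩ := Finset.mem_image.1 hq
  have hs0 := (good_Z hk hs).ne
  by_cases hT : ∃ t ∈ T (3 * k), P (3 * k) t = P (3 * k) s
  · obtain ⟨t, ht, hts⟩ := hT
    have h3 : 3 ≤ mult F (P (3 * k) s) := by
      rw [le_mult hF0, ← hts]
      exact mult_T (by omega) hF h0 (mem_T.1 ht).2 (good_T hk ht)
    refine ⟨by omega, ?_⟩
    have hcard : ((Z (3 * k)).filter (fun t => P (3 * k) t = P (3 * k) s)).card ≤ 3 := by
      refine (Finset.card_le_card (t := {s, yy (3 * k) s, zz (3 * k) s}) ?_).trans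
        Finset.card_le_three
      intro t' ht'
      rw [Finset.mem_filter] at ht'
      rcases fibre hs0 (good_Z hk ht'.1).ne ht'.2 with h | h | h
      · simp [h]
      · simp [h]
      · simp [h]
    have hg : ∀ t ∈ (Z (3 * k)).filter (fun t => P (3 * k) t = P (3 * k) s),
        g (3 * k) c t ≤ (9 - c) / 3 := by
      intro t _
      rw [g]
      split_ifs
      · exact le_refl _
      · linarith
    have h4 := Finset.sum_le_card_nsmul _ _ _ hg
    rw [nsmul_eq_mul] at h4
    have h5 : (((Z (3 * k)).filter (fun t => P (3 * k) t = P (3 * k) s)).card : ℝ) ≤ 3 := by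
      exact_mod_cast hcard
    have h6 : (3 : ℝ) ≤ mult F (P (3 * k) s) := by exact_mod_cast h3
    have h7 : (0 : ℝ) ≤ (9 - c) / 3 := by linarith
    nlinarith
  · push Not at hT
    have hsT : s ∉ T (3 * k) := fun h => hT s h rfl
    have hsAB : s ∈ A (3 * k) ∨ s ∈ B (3 * k) := by
      rw [Z, Finset.mem_union, Finset.mem_union] at hs
      exact hs.resolve_left hsT
    have h2 : 2 ≤ mult F (P (3 * k) s) := by
      rw [le_mult hF0]
      rcases hsAB with h | h
      · exact mult_A (by omega) hF h0 ((mem_A (by omega)).1 h).1 (good_A hk h)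
      · exact mult_B (by omega) hF h0 ((mem_B (by omega)).1 h).1 (good_B hk h)
    refine ⟨h2, ?_⟩
    have hcard : ((Z (3 * k)).filter (fun t => P (3 * k) t = P (3 * k) s)).card ≤ 2 := by
      rcases hsAB with h | h
      · refine (Finset.card_le_card (t := {s, yy (3 * k) s}) ?_).trans Finset.card_le_two
        intro t' ht'
        rw [Finset.mem_filter] at ht'
        have hgt := good_Z hk ht'.1
        rcases fibre hs0 hgt.ne ht'.2 with h' | h' | h'
        · simp [h']
        · simp [h']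
        · exfalso
          apply hgt.xy
          rw [h', yy, zz, inv_pow]
          congr 1
          have h1 := ((mem_A (by omega)).1 h).1
          obtain ⟨m, hm⟩ : ∃ m, 3 * k = m + 1 := ⟨3 * k - 1, by omega⟩
          rw [hm] at h1 ⊢
          rw [Nat.add_sub_cancel] at h1
          have e : (s ^ (m + 1 + 1)) ^ (m + 1) = s ^ (m * (m + 1 + 1)) * s ^ (m + 1 + 1) := by ring
          rw [e, h1, one_mul]
      · refine (Finset.card_le_card (t := {s, zz (3 * k) s}) ?_).trans Finset.card_le_two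
        intro t' ht'
        rw [Finset.mem_filter] at ht'
        have hgt := good_Z hk ht'.1
        rcases fibre hs0 hgt.ne ht'.2 with h' | h' | h'
        · simp [h']
        · exfalso
          apply hgt.zx
          have h1 := ((mem_B (by omega)).1 h).1
          rw [h', yy, zz, inv_eq_iff_eq_inv,
            Pool.Agent.Q79.HC.eq_inv_iff_mul_eq_one₀ (pow_ne_zero _ hs0), ← h1]
          ring
        · simp [h']
    have hg : ∀ t ∈ (Z (3 * k)).filter (fun t => P (3 * k) t = P (3 * k) s),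
        g (3 * k) c t ≤ (4 - c) / 2 := by
      intro t ht
      rw [Finset.mem_filter] at ht
      rw [g, if_neg]
      intro hh
      exact hT t hh ht.2
    have h4 := Finset.sum_le_card_nsmul _ _ _ hg
    rw [nsmul_eq_mul] at h4
    have h5 : (((Z (3 * k)).filter (fun t => P (3 * k) t = P (3 * k) s)).card : ℝ) ≤ 2 := by
      exact_mod_cast hcard
    have h6 : (2 : ℝ) ≤ mult F (P (3 * k) s) := by exact_mod_cast h2
    have h7 : (0 : ℝ) ≤ (4 - c) / 2 := by linarith
    nlinarith

theorem sum_g {k : ℕ} (hk : 1 ≤ k) (c : ℝ) : ∑ t ∈ Z (3 * k), g (3 * k) c t =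
    ((3 * k : ℝ) ^ 2 + 3 * k) * ((9 - c) / 3) + (2 * (3 * k : ℝ) ^ 2 - 2) * ((4 - c) / 2) := by
  classical
  have hd1 : Disjoint (T (3 * k)) (A (3 * k) ∪ B (3 * k)) := by
    rw [Finset.disjoint_union_right]
    exact ⟨disj_TA hk, disj_TB hk⟩
  rw [Z, Finset.sum_union hd1]
  have h1 : ∑ t ∈ T (3 * k), g (3 * k) c t = ((3 * k : ℝ) ^ 2 + 3 * k) * ((9 - c) / 3) := by
    have : ∀ t ∈ T (3 * k), g (3 * k) c t = (9 - c) / 3 := fun t ht => by rw [g, if_pos ht]
    rw [Finset.sum_congr rfl this, Finset.sum_const, card_T, nsmul_eq_mul]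
    push_cast
    ring
  have h2 : ∑ t ∈ A (3 * k) ∪ B (3 * k), g (3 * k) c t =
      (2 * (3 * k : ℝ) ^ 2 - 2) * ((4 - c) / 2) := by
    have : ∀ t ∈ A (3 * k) ∪ B (3 * k), g (3 * k) c t = (4 - c) / 2 := fun t ht => by
      rw [g, if_neg]
      exact fun hh => (Finset.disjoint_left.1 hd1) hh ht
    rw [Finset.sum_congr rfl this, Finset.sum_const, Finset.card_union_of_disjoint (disj_AB hk),
      nsmul_eq_mul]
    congr 1
    have hA := card_A (b := 3 * k) (by omega)
    have hB := card_B (b := 3 * k) (by omega)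
    obtain ⟨m, hm⟩ : ∃ m, 3 * k = m + 1 := ⟨3 * k - 1, by omega⟩
    have hk' : (3 * k : ℝ) = m + 1 := by exact_mod_cast hm
    rw [hm, Nat.add_sub_cancel] at hA
    rw [hm] at hB
    rw [hk', hm]
    have hA' : ((A (m + 1)).card : ℝ) + m = m * (m + 1 + 1) := by exact_mod_cast hA
    have hB' : ((B (m + 1)).card : ℝ) + (m + 1 + 2) = (m + 1) * (m + 1 + 2) := by exact_mod_cast hB
    push_cast
    linear_combination hA' + hB'
  rw [h1, h2]

theorem main {c : ℝ} (hc0 : 0 ≤ c) (hc : c < 9 / 4) :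
    ∃ (F : MvPolynomial (Fin 3) ℂ) (d : ℕ), IsIrreducibleSingularCurve F d ∧ h F d < -c := by
  classical
  -- the choice of `k`
  have hδ : 0 < 3 - 4 * c / 3 := by linarith
  obtain ⟨k, hk⟩ := exists_nat_gt (14 / (3 * (3 - 4 * c / 3)))
  have hkδ : 14 < (3 * k : ℝ) * (3 - 4 * c / 3) := by
    rw [div_lt_iff₀ (by positivity)] at hk
    linarith
  have hk1 : 1 ≤ k := by
    by_contra hcon
    have : k = 0 := by omega
    rw [this] at hkδ
    simp at hkδ
    linarith
  obtain ⟨d, F, hF, hFi, h0⟩ := exists_form (natDegree_pp (3 * k))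
  have hd : d ≤ 2 * (3 * k) + 2 := degree_le (natDegree_pp (3 * k)) (img_infinite hk1) hF hFi h0
  have hfin := sing_finite hF hFi
  have hF0 := hFi.ne_zero
  have hsub : ∀ q ∈ (Z (3 * k)).image (P (3 * k)), q ∈ Sing F := fun q hq =>
    (fibre_sum hk1 hF hF0 h0 hc0 (by linarith) hq).1
  have h1T : 0 < (T (3 * k)).card := by
    rw [card_T]
    positivity
  obtain ⟨t0, ht0⟩ := Finset.card_pos.1 h1T
  have hne : (Sing F).Nonempty := ⟨P (3 * k) t0, hsub _ (Finset.mem_image_of_mem _ (by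
    rw [Z, Finset.mem_union]; exact Or.inl ht0))⟩
  refine ⟨F, d, ⟨hF, hFi, hfin, hne⟩, ?_⟩
  rw [h, div_lt_iff₀ (by
    rw [Nat.cast_pos, Set.ncard_pos hfin]
    exact hne)]
  rw [finsum_mem_eq_finite_toFinset_sum _ hfin, Set.ncard_eq_toFinset_card _ hfin]
  -- the sum over the singular points
  have e1 : ∑ q ∈ hfin.toFinset, ((mult F q : ℝ) ^ 2 - c) =
      ∑ q ∈ hfin.toFinset, (mult F q : ℝ) ^ 2 - c * hfin.toFinset.card := by
    rw [Finset.sum_sub_distrib, Finset.sum_const, nsmul_eq_mul]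
    ring
  have e2 : ∑ q ∈ (Z (3 * k)).image (P (3 * k)), ((mult F q : ℝ) ^ 2 - c) ≤
      ∑ q ∈ hfin.toFinset, ((mult F q : ℝ) ^ 2 - c) := by
    apply Finset.sum_le_sum_of_subset_of_nonneg
    · intro q hq
      rw [Set.Finite.mem_toFinset]
      exact hsub q hq
    · intro q hq _
      rw [Set.Finite.mem_toFinset] at hq
      have : (2 : ℝ) ≤ mult F q := by exact_mod_cast (hq : 2 ≤ mult F q)
      nlinarith
  have e3 : ∑ t ∈ Z (3 * k), g (3 * k) c t ≤
      ∑ q ∈ (Z (3 * k)).image (P (3 * k)), ((mult F q : ℝ) ^ 2 - c) := by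
    rw [← Finset.sum_fiberwise_of_maps_to (g := P (3 * k)) (t := (Z (3 * k)).image (P (3 * k)))
      (fun t ht => Finset.mem_image_of_mem _ ht)]
    exact Finset.sum_le_sum fun q hq => (fibre_sum hk1 hF hF0 h0 hc0 (by linarith) hq).2
  rw [sum_g hk1] at e3
  have e4 : (d : ℝ) ≤ 2 * (3 * k) + 2 := by exact_mod_cast hd
  have e5 : (d : ℝ) ^ 2 ≤ (2 * (3 * k) + 2) ^ 2 := by
    have : (0 : ℝ) ≤ d := Nat.cast_nonneg _
    nlinarith
  have hk1' : (1 : ℝ) ≤ k := by exact_mod_cast hk1
  have e6 : (2 * (3 * k : ℝ) + 2) ^ 2 < ((3 * k : ℝ) ^ 2 + 3 * k) * ((9 - c) / 3) +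
      (2 * (3 * k : ℝ) ^ 2 - 2) * ((4 - c) / 2) := by
    have : 14 * (3 * k : ℝ) < (3 * k : ℝ) ^ 2 * (3 - 4 * c / 3) := by nlinarith
    nlinarith
  linarith

/-- **Theorem.**  There is an irreducible singular complex plane curve `C` with `h(C) < -2`; moreover
for every `ε > 0` there is an irreducible singular complex plane curve `C` with
`h(C) < -9/4 + ε`. -/
theorem result :
    (∃ (F : MvPolynomial (Fin 3) ℂ) (d : ℕ), IsIrreducibleSingularCurve F d ∧ h F d < -2) ∧
    ∀ ε : ℝ, 0 < ε →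
      ∃ (F : MvPolynomial (Fin 3) ℂ) (d : ℕ), IsIrreducibleSingularCurve F d ∧
        h F d < -9 / 4 + ε := by
  refine ⟨main (c := 2) (by norm_num) (by norm_num), ?_⟩
  intro ε hε
  obtain ⟨F, d, h1, h2⟩ := main (c := max 0 (9 / 4 - ε)) (le_max_left _ _)
    (max_lt (by norm_num) (by linarith))
  refine ⟨F, d, h1, lt_of_lt_of_le h2 ?_⟩
  have := le_max_right 0 (9 / 4 - ε)
  linarith

end Pool.Agent.Results.MP_81ecef_ag.NineQuarters
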